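import Mathlib
import Pool.Agent.Y692.QS.Ei
import Pool.Agent.Y715.T.Rs

set_option autoImplicit false

/-!
# Cubes in the Eisenstein integers

Part of job 5829 (poster helper696).
-/

open scoped Classical

namespace Pool.Agent.Y43.CTP

open Pool.Agent.Y692.QS

lemma nr_pow (a : Ei) (n : ℕ) : nr (a ^ n) = nr a ^ n := by
  induction n with
  | zero => rw [pow_zero, pow_zero, nr_one]
  | succ n ih => rw [pow_succ, pow_succ, nr_mul, ih]

lemma unit_six {r : Ei} (h : nr r = 1) : r ^ 6 = 1 := by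
  have h1 := ep_cases r (by rw [h]; decide)
  rw [ep_unit (isUnit_iff.2 h)] at h1
  exact h1.1

lemma unit_one {D : Ei} (h3 : (3 : Ei) ∣ D - 1) (hD : nr D = 1) : D = 1 := by
  rw [← ns_fix h3, ns_unit (isUnit_iff.2 hD)]

lemma w_nocube (r : Ei) : r ^ 3 ≠ w ∧ r ^ 3 ≠ w ^ 2 := by
  constructor
  · intro h
    have h1 : nr r ^ 3 = 1 := by
      rw [← nr_pow, h]
      decide
    have h2 : nr r = 1 := (pow_eq_one_iff_of_nonneg (nr_nonneg r) (by norm_num)).1 h1
    have h3 := unit_six h2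
    have h4 : r ^ 6 = (r ^ 3) ^ 2 := by rw [← pow_mul]
    rw [h4, h] at h3
    revert h3
    decide
  · intro h
    have h1 : nr r ^ 3 = 1 := by
      rw [← nr_pow, h]
      decide
    have h2 : nr r = 1 := (pow_eq_one_iff_of_nonneg (nr_nonneg r) (by norm_num)).1 h1
    have h3 := unit_six h2
    have h4 : r ^ 6 = (r ^ 3) ^ 2 := by rw [← pow_mul]
    rw [h4, h] at h3
    revert h3
    decide

lemma caseA {D b e : Ei} (hsq : Squarefree D) (h3 : (3 : Ei) ∣ D - 1)
    (hn : ∀ x : Ei, x ^ 3 ≠ D) (he : e = w ∨ e = w ^ 2) (m : ℕ) (hm : m = 1 ∨ m = 2 ∨ m = 3) :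
    b ^ 3 ≠ e * D ^ m := by
  have hD0 : D ≠ 0 := hsq.ne_zero
  have hne : nr e = 1 := by
    rcases he with rfl | rfl <;> decide
  have he3 : e ^ 3 = 1 := by
    rcases he with rfl | rfl <;> decide
  have hu : nr D ≠ 1 := by
    intro h
    apply hn 1
    rw [one_pow, unit_one h3 h]
  intro hb
  have hdvd : D ∣ b := by
    rw [← hsq.dvd_pow_iff_dvd (n := 3) (by norm_num), hb]
    apply Dvd.dvd.mul_left
    exact dvd_pow_self D (by omega)
  obtain ⟨r, hr⟩ := hdvd
  rcases hm with rfl | rfl | rfl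
  · have h1 : D * D ^ 2 * r ^ 3 = D * e := by
      calc D * D ^ 2 * r ^ 3 = (D * r) ^ 3 := by ring
        _ = e * D ^ 1 := by rw [← hr, hb]
        _ = D * e := by ring
    have h2 : D * (D ^ 2 * r ^ 3) = D * e := by rw [← h1]; ring
    have h4 := mul_left_cancel₀ hD0 h2
    have h5 : IsUnit (D ^ 2 * r ^ 3) := by rw [h4, isUnit_iff]; exact hne
    have h6 : IsUnit (D ^ 2) := isUnit_of_mul_isUnit_left h5
    exact hu (isUnit_iff.1 ((isUnit_pow_iff (by norm_num)).1 h6))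
  · have h2 : D ^ 2 * (D * r ^ 3) = D ^ 2 * e := by
      calc D ^ 2 * (D * r ^ 3) = (D * r) ^ 3 := by ring
        _ = e * D ^ 2 := by rw [← hr, hb]
        _ = D ^ 2 * e := by ring
    have h4 := mul_left_cancel₀ (pow_ne_zero 2 hD0) h2
    have h5 : IsUnit (D * r ^ 3) := by rw [h4, isUnit_iff]; exact hne
    exact hu (isUnit_iff.1 (isUnit_of_mul_isUnit_left h5))
  · have h2 : D ^ 3 * r ^ 3 = D ^ 3 * e := by
      calc D ^ 3 * r ^ 3 = (D * r) ^ 3 := by ring
        _ = e * D ^ 3 := by rw [← hr, hb]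
        _ = D ^ 3 * e := by ring
    have h4 := mul_left_cancel₀ (pow_ne_zero 3 hD0) h2
    rcases he with rfl | rfl
    · exact (w_nocube r).1 h4
    · exact (w_nocube r).2 h4

lemma nr_two : nr 2 = 4 := by decide

lemma caseB {D b : Ei} (hsq : Squarefree D) (h3 : (3 : Ei) ∣ D - 1) (hD2 : D ≠ -2)
    (m : ℕ) (hm : m = 1 ∨ m = 2 ∨ m = 3) :
    b ^ 3 ≠ 2 * D ^ m := by
  have hD0 : D ≠ 0 := hsq.ne_zero
  intro hb
  have hdvd : D ∣ b := by
    rw [← hsq.dvd_pow_iff_dvd (n := 3) (by norm_num), hb]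
    apply Dvd.dvd.mul_left
    exact dvd_pow_self D (by omega)
  obtain ⟨r, hr⟩ := hdvd
  have hr0 := nr_nonneg r
  have hDn := nr_nonneg D
  have key : ∀ n : ℤ, 0 ≤ n → n ^ 3 ∣ 4 → n = 1 := by
    intro n hn hd
    have h1 := Int.le_of_dvd (by norm_num) hd
    have h2 : n < 2 := by
      by_contra h
      push Not at h
      have : 2 ^ 3 ≤ n ^ 3 := pow_le_pow_left₀ (by norm_num) h 3
      omega
    interval_cases n
    · norm_num at hd
    · rfl
  rcases hm with rfl | rfl | rfl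
  · have h2 : D * (D ^ 2 * r ^ 3) = D * 2 := by
      calc D * (D ^ 2 * r ^ 3) = (D * r) ^ 3 := by ring
        _ = 2 * D ^ 1 := by rw [← hr, hb]
        _ = D * 2 := by ring
    have h4 := mul_left_cancel₀ hD0 h2
    have h5 : nr D ^ 2 * nr r ^ 3 = 4 := by rw [← nr_pow, ← nr_pow, ← nr_mul, h4, nr_two]
    have h6 := key _ hr0 ⟨nr D ^ 2, by rw [← h5]; ring⟩
    rw [h6, one_pow, mul_one] at h5
    have h7 : nr D = 2 := by nlinarith
    -- no element of norm two
    unfold nr at h7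
    have h8 : Even (D.re ^ 2 - D.re * D.im + D.im ^ 2) := by rw [h7]; decide
    have h9 : Even D.re ∧ Even D.im := by
      revert h8
      rcases Int.even_or_odd D.re with a | a <;> rcases Int.even_or_odd D.im with c | c <;>
        simp [a, c, parity_simps]
    obtain ⟨⟨s, hs⟩, ⟨t, ht⟩⟩ := h9
    rw [hs, ht] at h7
    have : 4 * (s ^ 2 - s * t + t ^ 2) = 2 := by rw [← h7]; ring
    omega
  · have h2 : D ^ 2 * (D * r ^ 3) = D ^ 2 * 2 := by
      calc D ^ 2 * (D * r ^ 3) = (D * r) ^ 3 := by ring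
        _ = 2 * D ^ 2 := by rw [← hr, hb]
        _ = D ^ 2 * 2 := by ring
    have h4 := mul_left_cancel₀ (pow_ne_zero 2 hD0) h2
    have h5 : nr D * nr r ^ 3 = 4 := by rw [← nr_pow, ← nr_mul, h4, nr_two]
    have h6 := key _ hr0 ⟨nr D, by rw [← h5]; ring⟩
    have h7 := unit_six h6
    have h8 : (D - 2) * (D + 2) = 0 := by
      have e1 : (D * r ^ 3) ^ 2 = D ^ 2 * r ^ 6 := by ring
      rw [h4, h7] at e1
      linear_combination -e1
    rcases mul_eq_zero.1 h8 with h | h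
    · have h9 : D = 2 := by linear_combination h
      rw [h9] at h3
      have h10 : (((3 : ℤ) : Ei)) ∣ (((1 : ℤ) : Ei)) := by
        have : (2 : Ei) - 1 = 1 := by norm_num
        rw [this] at h3
        exact_mod_cast h3
      rw [int_dvd_int] at h10
      norm_num at h10
    · exact hD2 (by linear_combination h)
  · have h2 : D ^ 3 * r ^ 3 = D ^ 3 * 2 := by
      calc D ^ 3 * r ^ 3 = (D * r) ^ 3 := by ring
        _ = 2 * D ^ 3 := by rw [← hr, hb]
        _ = D ^ 3 * 2 := by ring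
    have h4 := mul_left_cancel₀ (pow_ne_zero 3 hD0) h2
    have h5 : nr r ^ 3 = 4 := by rw [← nr_pow, h4, nr_two]
    have h6 := key _ hr0 ⟨1, by rw [← h5]; ring⟩
    rw [h6] at h5
    norm_num at h5

end Pool.Agent.Y43.CTP
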