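import Mathlib

set_option autoImplicit false

/-!
# A place above `2` of a number field of degree six containing the third roots of unity

Part of job 5829 (poster helper696).
-/

open scoped Classical

namespace Pool.Agent.Y43.CTP

open NumberField IsDedekindDomain

section nf

variable {F : Type} [Field F] [NumberField F]

lemma norm_two (hdeg : Module.finrank ℚ F = 6) :
    Ideal.absNorm (Ideal.span {(2 : 𝓞 F)}) = 2 ^ 6 := by
  rw [Ideal.absNorm_span_singleton]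
  have e : (2 : 𝓞 F) = algebraMap ℤ (𝓞 F) 2 := by norm_num
  rw [e, Algebra.norm_algebraMap, RingOfIntegers.rank, hdeg]
  norm_num

lemma exists_P (hdeg : Module.finrank ℚ F = 6) :
    ∃ v : HeightOneSpectrum (𝓞 F), (2 : 𝓞 F) ∈ v.asIdeal := by
  have h1 : Ideal.span {(2 : 𝓞 F)} ≠ ⊤ := by
    intro h
    have := norm_two hdeg
    rw [h, Ideal.absNorm_top] at this
    norm_num at this
  obtain ⟨M, hM, hle⟩ := Ideal.exists_le_maximal _ h1
  have h2 : (2 : 𝓞 F) ∈ M := hle (Ideal.mem_span_singleton_self 2)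
  refine ⟨⟨M, hM.isPrime, ?_⟩, h2⟩
  rintro rfl
  rw [Ideal.mem_bot] at h2
  exact two_ne_zero h2

lemma q_eq (hdeg : Module.finrank ℚ F = 6) {w : 𝓞 F} (hw : w ^ 2 + w + 1 = 0)
    (v : HeightOneSpectrum (𝓞 F)) (h2 : (2 : 𝓞 F) ∈ v.asIdeal) :
    ∃ k : ℕ, (k = 1 ∨ k = 2 ∨ k = 3) ∧ Nat.card (𝓞 F ⧸ v.asIdeal) = 4 ^ k := by
  have hmax := v.isMaximal
  let _ := Ideal.Quotient.field v.asIdeal
  have hfin : Finite (𝓞 F ⧸ v.asIdeal) := Ideal.finiteQuotientOfFreeOfNeBot _ v.ne_bot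
  let _ := Fintype.ofFinite (𝓞 F ⧸ v.asIdeal)
  have hq : Nat.card (𝓞 F ⧸ v.asIdeal) = Ideal.absNorm v.asIdeal := rfl
  have hdvd : Ideal.absNorm v.asIdeal ∣ 2 ^ 6 := by
    rw [← norm_two hdeg]
    exact Ideal.absNorm_dvd_absNorm_of_le (by rwa [Ideal.span_singleton_le_iff_mem])
  obtain ⟨f, hf, hqf⟩ := (Nat.dvd_prime_pow Nat.prime_two).1 hdvd
  rw [← hq] at hqf
  have e2 : (2 : 𝓞 F ⧸ v.asIdeal) = 0 := by
    have := Ideal.Quotient.eq_zero_iff_mem.2 h2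
    rwa [map_ofNat] at this
  obtain ⟨z, hz⟩ : ∃ z : 𝓞 F ⧸ v.asIdeal, z = Ideal.Quotient.mk v.asIdeal w := ⟨_, rfl⟩
  have ez : z ^ 2 + z + 1 = 0 := by
    have := congrArg (Ideal.Quotient.mk v.asIdeal) hw
    rw [map_add, map_add, map_pow, map_one, map_zero, ← hz] at this
    exact this
  have hz1 : z ≠ 1 := by
    intro h
    rw [h] at ez
    have : (1 : 𝓞 F ⧸ v.asIdeal) = 0 := by linear_combination ez - e2
    exact one_ne_zero this
  have hz3 : z ^ 3 = 1 := by linear_combination (z - 1) * ez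
  have hord : orderOf z = 3 := orderOf_eq_prime hz3 hz1
  have hz0 : z ≠ 0 := by
    intro h
    rw [h] at ez
    norm_num at ez
  have hpow := FiniteField.pow_card_sub_one_eq_one z hz0
  have hd := orderOf_dvd_of_pow_eq_one hpow
  rw [hord, ← Nat.card_eq_fintype_card, hqf] at hd
  have h1 : 1 < Nat.card (𝓞 F ⧸ v.asIdeal) := Finite.one_lt_card
  rw [hqf] at h1 ⊢
  interval_cases f
  · norm_num at h1
  · norm_num at hd
  · exact ⟨1, Or.inl rfl, by norm_num⟩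
  · norm_num at hd
  · exact ⟨2, Or.inr (Or.inl rfl), by norm_num⟩
  · norm_num at hd
  · exact ⟨3, Or.inr (Or.inr rfl), by norm_num⟩

lemma frobv (v : HeightOneSpectrum (𝓞 F)) (a : F) (ha : v.valuation F a ≤ 1) :
    v.valuation F (a ^ Nat.card (𝓞 F ⧸ v.asIdeal) - a) < 1 := by
  have hmax := v.isMaximal
  let _ := Ideal.Quotient.field v.asIdeal
  have hfin : Finite (𝓞 F ⧸ v.asIdeal) := Ideal.finiteQuotientOfFreeOfNeBot _ v.ne_bot
  let _ := Fintype.ofFinite (𝓞 F ⧸ v.asIdeal)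
  obtain ⟨b, hb⟩ := v.exists_valuation_sub_lt_of_integer ha 1
  obtain ⟨q, hq⟩ : ∃ q, q = Nat.card (𝓞 F ⧸ v.asIdeal) := ⟨_, rfl⟩
  rw [← hq]
  have h1 : b ^ q - b ∈ v.asIdeal := by
    rw [← Ideal.Quotient.eq_zero_iff_mem, map_sub, map_pow, hq, Nat.card_eq_fintype_card,
      FiniteField.pow_card, sub_self]
  have h2 : v.valuation F (algebraMap (𝓞 F) F b ^ q - algebraMap (𝓞 F) F b) < 1 := by
    rw [← map_pow, ← map_sub]
    exact (v.valuation_lt_one_iff_mem _).2 h1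
  have h3 : v.valuation F (a ^ q - algebraMap (𝓞 F) F b ^ q) < 1 := by
    obtain ⟨a', ha'⟩ : ∃ a' : (v.valuation F).integer, (a' : F) = a := ⟨⟨a, ha⟩, rfl⟩
    obtain ⟨b', hb'⟩ : ∃ b' : (v.valuation F).integer, (b' : F) = algebraMap (𝓞 F) F b :=
      ⟨⟨_, v.valuation_le_one b⟩, rfl⟩
    obtain ⟨c, hc⟩ := sub_dvd_pow_sub_pow a' b' q
    have e : a ^ q - algebraMap (𝓞 F) F b ^ q = (a - algebraMap (𝓞 F) F b) * (c : F) := by
      rw [← ha', ← hb']
      exact congrArg Subtype.val hc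
    rw [e, map_mul]
    refine mul_lt_one_of_lt_of_le ?_ c.2
    rw [Valuation.map_sub_swap]
    simpa using hb
  have e : a ^ q - a = (a ^ q - algebraMap (𝓞 F) F b ^ q) +
      (algebraMap (𝓞 F) F b ^ q - algebraMap (𝓞 F) F b) + (algebraMap (𝓞 F) F b - a) := by ring
  rw [e]
  exact Valuation.map_add_lt _ (Valuation.map_add_lt _ h3 h2) (by simpa using hb)

/-- a place above `2` -/
lemma place (hdeg : Module.finrank ℚ F = 6) {w : 𝓞 F} (hw : w ^ 2 + w + 1 = 0) :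
    ∃ v : HeightOneSpectrum (𝓞 F), v.valuation F 2 < 1 ∧
    ∃ k : ℕ, (k = 1 ∨ k = 2 ∨ k = 3) ∧
      ∀ a : F, v.valuation F a ≤ 1 → v.valuation F (a ^ 4 ^ k - a) < 1 := by
  obtain ⟨v, h2⟩ := exists_P hdeg
  refine ⟨v, ?_, ?_⟩
  · have := (v.valuation_lt_one_iff_mem (K := F) 2).2 h2
    exact this
  · obtain ⟨k, hk, hq⟩ := q_eq hdeg hw v h2
    refine ⟨k, hk, fun a ha => ?_⟩
    rw [← hq]
    exact frobv v a ha

end nf

end Pool.Agent.Y43.CTP
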