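import Mathlib

set_option autoImplicit false

/-!
# The curve `y² + y = x³`: explicit group law

Part of job 5829 (poster helper696).
-/

open scoped Classical

namespace Pool.Agent.Y43.CTP

open WeierstrassCurve

/-- the curve `y² + y = x³` -/
abbrev E1 (L : Type) [Field L] : WeierstrassCurve L := ⟨0, 0, 1, 0, 0⟩

/-- the points -/
abbrev Pt (L : Type) [Field L] : Type := (E1 L).toAffine.Point

section pts

variable {L : Type} [Field L]

lemma eq_iff (x y : L) : (E1 L).toAffine.Equation x y ↔ y ^ 2 + y = x ^ 3 := by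
  rw [Affine.equation_iff]
  simp

lemma nons_iff (h3 : (3 : L) ≠ 0) (x y : L) :
    (E1 L).toAffine.Nonsingular x y ↔ y ^ 2 + y = x ^ 3 := by
  rw [← eq_iff]
  have hΔ : (E1 L).Δ ≠ 0 := by
    have : (E1 L).Δ = -(3 ^ 3) := by
      simp only [WeierstrassCurve.Δ, b₂, b₄, b₆, b₈]
      ring
    rw [this]
    exact neg_ne_zero.2 (pow_ne_zero 3 h3)
  exact (Affine.equation_iff_nonsingular_of_Δ_ne_zero hΔ).symm

lemma pt_ext {x y x' y' : L} {h : (E1 L).toAffine.Nonsingular x y}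
    {h' : (E1 L).toAffine.Nonsingular x' y'} (hx : x = x') (hy : y = y') :
    (Affine.Point.some x y h : Pt L) = Affine.Point.some x' y' h' := by
  subst hx hy
  rfl

lemma pt_inj {x y x' y' : L} {h : (E1 L).toAffine.Nonsingular x y}
    {h' : (E1 L).toAffine.Nonsingular x' y'}
    (e : (Affine.Point.some x y h : Pt L) = Affine.Point.some x' y' h') : x = x' ∧ y = y' := by
  injection e with h1 h2
  exact ⟨h1, h2⟩

lemma neg_pt {x y : L} (h : (E1 L).toAffine.Nonsingular x y) :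
    ∃ h', -(Affine.Point.some x y h : Pt L) = Affine.Point.some x (-1 - y) h' := by
  have e : (E1 L).toAffine.negY x y = -1 - y := by
    simp only [Affine.negY]
    ring
  rw [Affine.Point.neg_some]
  refine ⟨by rw [← e]; exact (Affine.nonsingular_neg ..).2 h, pt_ext rfl e⟩

lemma add_ne {x₁ y₁ x₂ y₂ : L} (h₁ : (E1 L).toAffine.Nonsingular x₁ y₁)
    (h₂ : (E1 L).toAffine.Nonsingular x₂ y₂) (hx : x₁ ≠ x₂) (ℓ : L)
    (hℓ : ℓ * (x₁ - x₂) = y₁ - y₂) :
    ∃ h', (Affine.Point.some x₁ y₁ h₁ : Pt L) + Affine.Point.some x₂ y₂ h₂ =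
      Affine.Point.some (ℓ ^ 2 - x₁ - x₂) (-(ℓ * (ℓ ^ 2 - x₁ - x₂ - x₁) + y₁) - 1) h' := by
  have hs : (E1 L).toAffine.slope x₁ x₂ y₁ y₂ = ℓ := by
    rw [Affine.slope_of_X_ne hx, div_eq_iff (sub_ne_zero.2 hx), hℓ]
  have ex : (E1 L).toAffine.addX x₁ x₂ ((E1 L).toAffine.slope x₁ x₂ y₁ y₂) =
      ℓ ^ 2 - x₁ - x₂ := by
    rw [hs]
    simp only [Affine.addX]
    ring
  have ey : (E1 L).toAffine.addY x₁ x₂ y₁ ((E1 L).toAffine.slope x₁ x₂ y₁ y₂) =
      -(ℓ * (ℓ ^ 2 - x₁ - x₂ - x₁) + y₁) - 1 := by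
    rw [hs]
    simp only [Affine.addY, Affine.negAddY, Affine.negY, Affine.addX]
    ring
  rw [Affine.Point.add_of_X_ne hx]
  refine ⟨?_, pt_ext ex ey⟩
  rw [← ey, ← ex]
  exact Affine.nonsingular_add h₁ h₂ (fun h => hx h.1)

lemma dbl {x y : L} (h : (E1 L).toAffine.Nonsingular x y) (hy : 2 * y + 1 ≠ 0) (ℓ : L)
    (hℓ : ℓ * (2 * y + 1) = 3 * x ^ 2) :
    ∃ h', (Affine.Point.some x y h : Pt L) + Affine.Point.some x y h =
      Affine.Point.some (ℓ ^ 2 - x - x) (-(ℓ * (ℓ ^ 2 - x - x - x) + y) - 1) h' := by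
  have hneg : y ≠ (E1 L).toAffine.negY x y := by
    intro e
    apply hy
    simp only [Affine.negY] at e
    linear_combination e
  have hs : (E1 L).toAffine.slope x x y y = ℓ := by
    rw [Affine.slope_of_Y_ne rfl hneg]
    have e : y - (E1 L).toAffine.negY x y = 2 * y + 1 := by
      simp only [Affine.negY]
      ring
    rw [e, div_eq_iff hy, hℓ]
    simp
  have ex : (E1 L).toAffine.addX x x ((E1 L).toAffine.slope x x y y) = ℓ ^ 2 - x - x := by
    rw [hs]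
    simp only [Affine.addX]
    ring
  have ey : (E1 L).toAffine.addY x x y ((E1 L).toAffine.slope x x y y) =
      -(ℓ * (ℓ ^ 2 - x - x - x) + y) - 1 := by
    rw [hs]
    simp only [Affine.addY, Affine.negAddY, Affine.negY, Affine.addX]
    ring
  rw [Affine.Point.add_self_of_Y_ne hneg]
  refine ⟨?_, pt_ext ex ey⟩
  rw [← ey, ← ex]
  exact Affine.nonsingular_add h h (fun h => hneg h.2)

lemma add_neg' {x y₁ y₂ : L} (h₁ : (E1 L).toAffine.Nonsingular x y₁)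
    (h₂ : (E1 L).toAffine.Nonsingular x y₂) (hy : y₁ + y₂ + 1 = 0) :
    (Affine.Point.some x y₁ h₁ : Pt L) + Affine.Point.some x y₂ h₂ = 0 := by
  apply Affine.Point.add_of_Y_eq rfl
  simp only [Affine.negY]
  linear_combination hy

/-- `[ω]` -/
noncomputable def om {w : L} (hw : w ^ 3 = 1) (h3 : (3 : L) ≠ 0) : Pt L → Pt L
  | 0 => 0
  | Affine.Point.some x y h => Affine.Point.some (w * x) y (by
      rw [nons_iff h3] at h ⊢
      rw [mul_pow, hw, one_mul]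
      exact h)

section omega

variable {w : L} (hw : w ^ 3 = 1) (h3 : (3 : L) ≠ 0)

lemma om_zero : om hw h3 (0 : Pt L) = 0 := rfl

lemma om_some {x y : L} (h : (E1 L).toAffine.Nonsingular x y) :
    ∃ h', om hw h3 (Affine.Point.some x y h) = Affine.Point.some (w * x) y h' := ⟨_, rfl⟩

lemma y_cases {x y₁ y₂ : L} (h₁ : y₁ ^ 2 + y₁ = x ^ 3) (h₂ : y₂ ^ 2 + y₂ = x ^ 3) :
    y₁ + y₂ + 1 = 0 ∨ y₁ = y₂ := by
  have : (y₁ + y₂ + 1) * (y₁ - y₂) = 0 := by linear_combination h₁ - h₂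
  rcases mul_eq_zero.1 this with h | h
  · exact Or.inl h
  · exact Or.inr (sub_eq_zero.1 h)

include hw in
lemma w_ne : w ≠ 0 := by
  rintro rfl
  norm_num at hw

lemma om_add (P Q : Pt L) : om hw h3 (P + Q) = om hw h3 P + om hw h3 Q := by
  have hw0 := w_ne hw
  rcases P with _ | ⟨x₁, y₁, h₁⟩
  · have e : (Affine.Point.zero : Pt L) = 0 := rfl
    rw [e, om_zero, zero_add, zero_add]
  rcases Q with _ | ⟨x₂, y₂, h₂⟩
  · have e : (Affine.Point.zero : Pt L) = 0 := rfl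
    rw [e, om_zero, add_zero, add_zero]
  obtain ⟨g₁, e₁⟩ := om_some hw h3 h₁
  obtain ⟨g₂, e₂⟩ := om_some hw h3 h₂
  rw [e₁, e₂]
  by_cases hx : x₁ = x₂
  · subst hx
    rcases y_cases ((nons_iff h3 _ _).1 h₁) ((nons_iff h3 _ _).1 h₂) with hy | hy
    · rw [add_neg' h₁ h₂ hy, add_neg' g₁ g₂ hy, om_zero]
    · subst hy
      by_cases hd : 2 * y₁ + 1 = 0
      · have hy : y₁ + y₁ + 1 = 0 := by linear_combination hd
        rw [add_neg' h₁ h₂ hy, add_neg' g₁ g₂ hy, om_zero]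
      · obtain ⟨ℓ, hℓ⟩ : ∃ ℓ, ℓ * (2 * y₁ + 1) = 3 * x₁ ^ 2 :=
          ⟨3 * x₁ ^ 2 / (2 * y₁ + 1), div_mul_cancel₀ _ hd⟩
        obtain ⟨k₁, d₁⟩ := dbl h₁ hd ℓ hℓ
        obtain ⟨k₂, d₂⟩ := dbl g₁ hd (w ^ 2 * ℓ) (by linear_combination w ^ 2 * hℓ)
        obtain ⟨k₃, d₃⟩ := om_some hw h3 k₁
        rw [d₁, d₂, d₃]
        apply pt_ext
        · linear_combination (-(ℓ ^ 2 * w)) * hw
        · linear_combination (ℓ ^ 3 * (w ^ 3 + 1) - 3 * ℓ * x₁) * hw
  · have hx' : w * x₁ ≠ w * x₂ := fun h => hx (mul_left_cancel₀ hw0 h)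
    obtain ⟨ℓ, hℓ⟩ : ∃ ℓ, ℓ * (x₁ - x₂) = y₁ - y₂ :=
      ⟨(y₁ - y₂) / (x₁ - x₂), div_mul_cancel₀ _ (sub_ne_zero.2 hx)⟩
    obtain ⟨k₁, d₁⟩ := add_ne h₁ h₂ hx ℓ hℓ
    obtain ⟨k₂, d₂⟩ := add_ne g₁ g₂ hx' (w ^ 2 * ℓ) (by
      linear_combination (ℓ * (x₁ - x₂)) * hw + hℓ)
    obtain ⟨k₃, d₃⟩ := om_some hw h3 k₁
    rw [d₁, d₂, d₃]
    apply pt_ext
    · linear_combination (-(ℓ ^ 2 * w)) * hw
    · linear_combination (ℓ ^ 3 * (w ^ 3 + 1) - 2 * ℓ * x₁ - ℓ * x₂) * hw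

/-- `[ω]` as a homomorphism -/
noncomputable def omH : Pt L →+ Pt L where
  toFun := om hw h3
  map_zero' := rfl
  map_add' := om_add hw h3

lemma omH_some {x y : L} (h : (E1 L).toAffine.Nonsingular x y) :
    ∃ h', omH hw h3 (Affine.Point.some x y h) = Affine.Point.some (w * x) y h' := ⟨_, rfl⟩

lemma omH_cube (P : Pt L) : omH hw h3 (omH hw h3 (omH hw h3 P)) = P := by
  rcases P with _ | ⟨x, y, h⟩
  · rfl
  · obtain ⟨h1, e1⟩ := omH_some hw h3 h
    obtain ⟨h2, e2⟩ := omH_some hw h3 h1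
    obtain ⟨h3', e3⟩ := omH_some hw h3 h2
    rw [e1, e2, e3]
    apply pt_ext _ rfl
    linear_combination x * hw

/-- three times a point with `x = 0` -/
lemma x_zero {y : L} (h : (E1 L).toAffine.Nonsingular 0 y) (hd : 2 * y + 1 ≠ 0) :
    (Affine.Point.some 0 y h : Pt L) + Affine.Point.some 0 y h + Affine.Point.some 0 y h = 0 := by
  obtain ⟨k₁, d₁⟩ := dbl h hd 0 (by ring)
  rw [d₁]
  have e : ∀ (x' y' : L) (k : (E1 L).toAffine.Nonsingular x' y'), x' = 0 → y' + y + 1 = 0 →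
      (Affine.Point.some x' y' k : Pt L) + Affine.Point.some 0 y h = 0 := by
    intro x' y' k hx hy
    subst hx
    exact add_neg' k h hy
  apply e
  · ring
  · ring

lemma omH_rel (hw1 : w ^ 2 + w + 1 = 0) (hd : ∀ x y : L, (E1 L).toAffine.Nonsingular x y →
    2 * y + 1 ≠ 0) (P : Pt L) :
    P + omH hw h3 P + omH hw h3 (omH hw h3 P) = 0 := by
  rcases P with _ | ⟨x, y, h⟩
  · have e : (Affine.Point.zero : Pt L) = 0 := rfl
    rw [e, map_zero, map_zero, add_zero, add_zero]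
  · obtain ⟨h1, e1⟩ := omH_some hw h3 h
    obtain ⟨h2, e2⟩ := omH_some hw h3 h1
    rw [e1, e2]
    by_cases hx : x = 0
    · subst hx
      have a1 : (Affine.Point.some (w * 0) y h1 : Pt L) = Affine.Point.some 0 y h :=
        pt_ext (by ring) rfl
      have a2 : (Affine.Point.some (w * (w * 0)) y h2 : Pt L) = Affine.Point.some 0 y h :=
        pt_ext (by ring) rfl
      rw [a1, a2]
      exact x_zero h (hd _ _ h)
    · have hw1' : w ≠ 1 := by
        rintro rfl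
        apply h3
        linear_combination hw1
      have hxw : x ≠ w * x := by
        intro e
        apply hw1'
        have : (w - 1) * x = 0 := by linear_combination -e
        rcases mul_eq_zero.1 this with h | h
        · exact sub_eq_zero.1 h
        · exact absurd h hx
      obtain ⟨k₁, d₁⟩ := add_ne h h1 hxw 0 (by ring)
      rw [d₁]
      have e : ∀ (x' y' : L) (k : (E1 L).toAffine.Nonsingular x' y'), x' = w * (w * x) →
          y' + y + 1 = 0 →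
          (Affine.Point.some x' y' k : Pt L) + Affine.Point.some (w * (w * x)) y h2 = 0 := by
        intro x' y' k hx hy
        subst hx
        exact add_neg' k h2 hy
      apply e
      · linear_combination (-x) * hw1
      · ring

/-- `√-3` -/
noncomputable def lam : Pt L →+ Pt L := omH hw h3 - (omH hw h3).comp (omH hw h3)

lemma lam_apply (P : Pt L) : lam hw h3 P = omH hw h3 P - omH hw h3 (omH hw h3 P) := rfl

lemma lam_lam (hw1 : w ^ 2 + w + 1 = 0) (hd : ∀ x y : L, (E1 L).toAffine.Nonsingular x y →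
    2 * y + 1 ≠ 0) (P : Pt L) : lam hw h3 (lam hw h3 P) = -(3 • P) := by
  have h1 := omH_rel hw h3 hw1 hd P
  simp only [lam_apply, map_sub, omH_cube]
  have h2 : omH hw h3 (omH hw h3 P) = -(P + omH hw h3 P) := by
    rw [eq_neg_iff_add_eq_zero, add_comm]
    exact h1
  rw [h2]
  abel

lemma lam_some (hw1 : w ^ 2 + w + 1 = 0) {x y : L} (h : (E1 L).toAffine.Nonsingular x y)
    (hx : x ≠ 0) : ∃ (X c : L) (h' : (E1 L).toAffine.Nonsingular X (c ^ 3)),
      lam hw h3 (Affine.Point.some x y h) = Affine.Point.some X (c ^ 3) h' := by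
  obtain ⟨h1, e1⟩ := omH_some hw h3 h
  obtain ⟨h2, e2⟩ := omH_some hw h3 h1
  obtain ⟨h2', e2'⟩ := neg_pt h2
  have hw0 := w_ne hw
  have hw1' : w ≠ 1 := by
    rintro rfl
    apply h3
    linear_combination hw1
  have hne : w * x ≠ w * (w * x) := by
    intro e
    apply hw1'
    have : (w - 1) * (w * x) = 0 := by linear_combination -e
    rcases mul_eq_zero.1 this with h | h
    · exact sub_eq_zero.1 h
    · exact absurd h (mul_ne_zero hw0 hx)
  have hs0 : w * x - w * (w * x) ≠ 0 := sub_ne_zero.2 hne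
  obtain ⟨s, hs⟩ : ∃ s, s = w * x - w * (w * x) := ⟨_, rfl⟩
  rw [← hs] at hs0
  obtain ⟨ℓ, hℓ⟩ : ∃ ℓ, ℓ * s = 2 * y + 1 := ⟨(2 * y + 1) / s, div_mul_cancel₀ _ hs0⟩
  obtain ⟨c, hc⟩ : ∃ c, c * s = y - w ^ 2 := ⟨(y - w ^ 2) / s, div_mul_cancel₀ _ hs0⟩
  obtain ⟨k₁, d₁⟩ := add_ne h1 h2' hne ℓ (by rw [← hs, hℓ]; ring)
  have hE := (nons_iff h3 _ _).1 h
  have hw2 : w ^ 2 = -1 - w := by linear_combination hw1
  have hY : -(ℓ * (ℓ ^ 2 - w * x - w * (w * x) - w * x) + y) - 1 = c ^ 3 := by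
    apply mul_right_cancel₀ (pow_ne_zero 3 hs0)
    have e3 : s ^ 2 = -3 * x ^ 2 := by
      rw [hs]
      linear_combination (x ^ 2 * (w ^ 2 - 3 * w + 3)) * hw1
    have e4 : s ^ 3 = -3 * x ^ 3 * (1 + 2 * w) := by
      have : s ^ 3 = s ^ 2 * s := by ring
      rw [this, e3, hs]
      linear_combination (3 * x ^ 3) * hw1
    have e5 : (-(ℓ * (ℓ ^ 2 - w * x - w * (w * x) - w * x) + y) - 1) * s ^ 3 =
        -((ℓ * s) * ((ℓ * s) ^ 2 - (2 * w * x + w ^ 2 * x) * s ^ 2)) - (y + 1) * s ^ 3 := by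
      ring
    have e6 : c ^ 3 * s ^ 3 = (c * s) ^ 3 := by ring
    rw [e5, e6, hℓ, hc, e4, e3, hw2]
    have e7 : -((2 * y + 1) * ((2 * y + 1) ^ 2 - (2 * w * x + (-1 - w) * x) * (-3 * x ^ 2))) -
        (y + 1) * (-3 * x ^ 3 * (1 + 2 * w)) =
        -((2 * y + 1) * ((2 * y + 1) ^ 2 + 3 * (w - 1) * x ^ 3)) +
          3 * (y + 1) * (1 + 2 * w) * x ^ 3 := by ring
    rw [e7, ← hE]
    have hw3 : w ^ 3 = 1 := hw
    linear_combination (-(1 : L)) * hw3 - (3 * y + 3) * hw1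
  refine ⟨ℓ ^ 2 - w * x - w * (w * x), c, hY ▸ k₁, ?_⟩
  rw [lam_apply, e1, e2, sub_eq_add_neg, e2', d₁]
  exact pt_ext rfl hY

end omega

end pts

end Pool.Agent.Y43.CTP
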