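import Mathlib
import Pool.Agent.Y43.CTP.Pts

set_option autoImplicit false

/-!
# The curve `y² + y = x³`: the points of order `9`, and the number of the points

Part of job 5829 (poster helper696).
-/

open scoped Classical

namespace Pool.Agent.Y43.CTP

open WeierstrassCurve

section lamb

variable {L : Type} [Field L] {w : L} (hw : w ^ 3 = 1) (h3 : (3 : L) ≠ 0)

lemma lam_x0 {y : L} (h : (E1 L).toAffine.Nonsingular 0 y) :
    lam hw h3 (Affine.Point.some 0 y h) = 0 := by
  obtain ⟨h1, e1⟩ := omH_some hw h3 h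
  have a1 : (Affine.Point.some (w * 0) y h1 : Pt L) = Affine.Point.some 0 y h :=
    pt_ext (by ring) rfl
  rw [a1] at e1
  rw [lam_apply, e1, e1, sub_self]

include h3 in
/-- the points of order three -/
lemma three_x {x y : L} (h : (E1 L).toAffine.Nonsingular x y) (hd : 2 * y + 1 ≠ 0)
    (h30 : 3 • (Affine.Point.some x y h : Pt L) = 0) : x = 0 ∨ x ^ 3 = -1 := by
  obtain ⟨ℓ, hℓ⟩ : ∃ ℓ, ℓ * (2 * y + 1) = 3 * x ^ 2 :=
    ⟨3 * x ^ 2 / (2 * y + 1), div_mul_cancel₀ _ hd⟩
  obtain ⟨k₁, d₁⟩ := dbl h hd ℓ hℓ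
  obtain ⟨k₂, d₂⟩ := neg_pt h
  have e1 : (Affine.Point.some x y h : Pt L) + Affine.Point.some x y h =
      -(Affine.Point.some x y h : Pt L) := by
    rw [eq_neg_iff_add_eq_zero]
    have : 3 • (Affine.Point.some x y h : Pt L) = Affine.Point.some x y h +
      Affine.Point.some x y h + Affine.Point.some x y h := by
      rw [show (3 : ℕ) = 1 + 1 + 1 from rfl, add_smul, add_smul, one_smul]
    rw [← this, h30]
  rw [d₁, d₂] at e1
  have e2 := (pt_inj e1).1
  have hE := (nons_iff h3 _ _).1 h
  have e3 : (ℓ * (2 * y + 1)) ^ 2 = 3 * x * (2 * y + 1) ^ 2 := by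
    have : ℓ ^ 2 = 3 * x := by linear_combination e2
    rw [mul_pow, this]
  rw [hℓ] at e3
  have e4 : 3 * (x * (x ^ 3 + 1)) = 0 := by
    linear_combination (-1 : L) * e3 - 12 * x * hE
  have e5 := (mul_eq_zero.1 e4).resolve_left h3
  rcases mul_eq_zero.1 e5 with h | h
  · exact Or.inl h
  · exact Or.inr (by linear_combination h)

lemma y_of_x3 (hw1 : w ^ 2 + w + 1 = 0) {x y : L} (hE : y ^ 2 + y = x ^ 3) (hx : x ^ 3 = -1) :
    y = w ∨ y = w ^ 2 := by
  have : (y - w) * (y - w ^ 2) = 0 := by
    linear_combination hE + hx - y * hw1 + (w - 1) * hw1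
  rcases mul_eq_zero.1 this with h | h
  · exact Or.inl (sub_eq_zero.1 h)
  · exact Or.inr (sub_eq_zero.1 h)

include hw h3 in
lemma claimA (hw1 : w ^ 2 + w + 1 = 0) (hd : ∀ x y : L, (E1 L).toAffine.Nonsingular x y →
    2 * y + 1 ≠ 0) (hc1 : ∀ c : L, c ^ 3 ≠ w) (hc2 : ∀ c : L, c ^ 3 ≠ w ^ 2) (R : Pt L)
    (h30 : 3 • lam hw h3 R = 0) : lam hw h3 (lam hw h3 R) = 0 := by
  rcases R with _ | ⟨x, y, h⟩
  · have e : (Affine.Point.zero : Pt L) = 0 := rfl
    rw [e, map_zero, map_zero]
  · by_cases hx : x = 0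
    · subst hx
      rw [lam_x0, map_zero]
    · obtain ⟨X, c, h', e⟩ := lam_some hw h3 hw1 h hx
      rw [e] at h30 ⊢
      rcases three_x h3 h' (hd _ _ h') h30 with h0 | h0
      · subst h0
        exact lam_x0 hw h3 h'
      · exfalso
        rcases y_of_x3 hw1 ((nons_iff h3 _ _).1 h') h0 with h1 | h1
        · exact hc1 c h1
        · exact hc2 c h1

include hw h3 in
lemma claimB (hw1 : w ^ 2 + w + 1 = 0) (hd : ∀ x y : L, (E1 L).toAffine.Nonsingular x y →
    2 * y + 1 ≠ 0) (hc1 : ∀ c : L, c ^ 3 ≠ w) (hc2 : ∀ c : L, c ^ 3 ≠ w ^ 2) (P : Pt L)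
    (h9 : 9 • P = 0) : 3 • P = 0 := by
  have hll := lam_lam hw h3 hw1 hd
  have h1 : 3 • lam hw h3 (lam hw h3 P) = 0 := by
    rw [hll, smul_neg, smul_smul, neg_eq_zero]
    exact h9
  have h2 := claimA hw h3 hw1 hd hc1 hc2 (lam hw h3 P) h1
  have h4 : 3 • lam hw h3 P = 0 := by
    have := hll (lam hw h3 P)
    rw [h2] at this
    rw [← neg_eq_zero, ← this]
  have h5 := claimA hw h3 hw1 hd hc1 hc2 P h4
  rw [hll, neg_eq_zero] at h5
  exact h5

/-- the list of the points -/
noncomputable def pts (w : L) : Finset (L × L) :=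
  {(0, 0), (0, -1)} ∪ ({-1, -w, -w ^ 2} ×ˢ {w, w ^ 2})

include hw h3 in
lemma pts_card (hw1 : w ^ 2 + w + 1 = 0) : (pts w).card = 8 := by
  have hw0 := w_ne hw
  have hw1' : w ≠ 1 := by
    rintro rfl
    apply h3
    linear_combination hw1
  have hw2 : w ^ 2 ≠ 1 := by
    intro e
    apply hw1'
    have : w ^ 3 = w ^ 2 * w := by ring
    rw [hw, e, one_mul] at this
    exact this.symm
  have hw3 : w ≠ w ^ 2 := by
    intro e
    apply hw1'
    have : w * (w - 1) = 0 := by linear_combination -e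
    exact sub_eq_zero.1 ((mul_eq_zero.1 this).resolve_left hw0)
  unfold pts
  rw [Finset.card_union_of_disjoint, Finset.card_product]
  · have a1 : ({(0, 0), (0, -1)} : Finset (L × L)).card = 2 := by
      apply Finset.card_pair
      intro e
      have := (Prod.mk.inj e).2
      exact one_ne_zero (neg_eq_zero.1 this.symm)
    have a2 : ({w, w ^ 2} : Finset L).card = 2 := Finset.card_pair hw3
    have a3 : ({-1, -w, -w ^ 2} : Finset L).card = 3 := by
      rw [Finset.card_eq_three]
      refine ⟨_, _, _, ?_, ?_, ?_, rfl⟩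
      · intro e
        exact hw1' (neg_inj.1 e).symm
      · intro e
        exact hw2 (neg_inj.1 e).symm
      · intro e
        exact hw3 (neg_inj.1 e)
    rw [a1, a2, a3]
  · rw [Finset.disjoint_left]
    rintro ⟨a, b⟩ ha hb
    rw [Finset.mem_product] at hb
    have ha' : a = 0 := by
      rcases Finset.mem_insert.1 ha with h | h
      · exact (Prod.mk.inj h).1
      · exact (Prod.mk.inj (Finset.mem_singleton.1 h)).1
    subst ha'
    have hb' := hb.1
    simp only [Finset.mem_insert, Finset.mem_singleton] at hb'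
    rcases hb' with h | h | h
    · exact one_ne_zero (neg_eq_zero.1 h.symm)
    · exact hw0 (neg_eq_zero.1 h.symm)
    · exact pow_ne_zero 2 hw0 (neg_eq_zero.1 h.symm)

include h3 in
lemma pts_mem (hw1 : w ^ 2 + w + 1 = 0) {p : L × L} (hp : p ∈ pts w) :
    (E1 L).toAffine.Nonsingular p.1 p.2 := by
  obtain ⟨x, y⟩ := p
  rw [nons_iff h3]
  unfold pts at hp
  rw [Finset.mem_union, Finset.mem_product] at hp
  simp only [Finset.mem_insert, Finset.mem_singleton, Prod.mk.injEq] at hp
  simp only
  rcases hp with (⟨h1, h2⟩ | ⟨h1, h2⟩) | ⟨h1 | h1 | h1, h2 | h2⟩ <;> rw [h1, h2]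
  · ring
  · ring
  · linear_combination hw1
  · linear_combination (w ^ 2 - w + 1) * hw1
  · linear_combination w * hw1
  · linear_combination (w ^ 2) * hw1
  · linear_combination (w ^ 4 - w ^ 3 + w) * hw1
  · linear_combination (w ^ 4 - w ^ 3 + w ^ 2) * hw1

include hw h3 in
lemma card_nine (hw1 : w ^ 2 + w + 1 = 0) (hd : ∀ x y : L, (E1 L).toAffine.Nonsingular x y →
    2 * y + 1 ≠ 0) (h3P : ∀ P : Pt L, 3 • P = 0) : Nat.card (Pt L) = 9 := by
  have hw0 := w_ne hw
  let f : Option (pts w) → Pt L := fun o => match o with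
    | none => 0
    | some p => Affine.Point.some p.1.1 p.1.2 (pts_mem h3 hw1 p.2)
  have hf : Function.Bijective f := by
    constructor
    · rintro (_ | ⟨⟨x, y⟩, hp⟩) (_ | ⟨⟨x', y'⟩, hp'⟩) e
      · rfl
      · exact absurd e.symm (Affine.Point.some_ne_zero _)
      · exact absurd e (Affine.Point.some_ne_zero _)
      · obtain ⟨h1, h2⟩ := pt_inj e
        simp only at h1 h2
        subst h1 h2
        rfl
    · intro P
      rcases P with _ | ⟨x, y, h⟩
      · exact ⟨none, rfl⟩
      · have hE := (nons_iff h3 _ _).1 h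
        have hm : (x, y) ∈ pts w := by
          unfold pts
          rw [Finset.mem_union, Finset.mem_product]
          simp only [Finset.mem_insert, Finset.mem_singleton, Prod.mk.injEq]
          rcases three_x h3 h (hd _ _ h) (h3P _) with h0 | h0
          · left
            subst h0
            have : y * (y + 1) = 0 := by linear_combination hE
            rcases mul_eq_zero.1 this with h | h
            · exact Or.inl ⟨rfl, h⟩
            · exact Or.inr ⟨rfl, by linear_combination h⟩
          · right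
            refine ⟨?_, y_of_x3 hw1 hE h0⟩
            have : (x + 1) * ((x + w) * (x + w ^ 2)) = 0 := by
              linear_combination h0 + (x ^ 2 + x * w + (w - 1)) * hw1
            rcases mul_eq_zero.1 this with h | h
            · exact Or.inl (by linear_combination h)
            rcases mul_eq_zero.1 h with h | h
            · exact Or.inr (Or.inl (by linear_combination h))
            · exact Or.inr (Or.inr (by linear_combination h))
        exact ⟨some ⟨(x, y), hm⟩, rfl⟩
  rw [← Nat.card_eq_of_bijective f hf]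
  rw [Nat.card_eq_fintype_card, Fintype.card_option, Fintype.card_coe, pts_card hw h3 hw1]

end lamb

end Pool.Agent.Y43.CTP
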