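import Mathlib
import Pool.Agent.Y43.CTP.Lam

set_option autoImplicit false

/-!
# The curve `y² + y = x³`: reduction at a place above `2`

Part of job 5829 (poster helper696).
-/

open scoped Classical

namespace Pool.Agent.Y43.CTP

open WeierstrassCurve

section odd

variable {L : Type} [Field L] {Γ : Type} [LinearOrderedCommGroupWithZero Γ] (v : Valuation L Γ)
  (h2 : v 2 < 1)

include h2

lemma v3 : v 3 = 1 := by
  have : (3 : L) = 1 + 2 := by norm_num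
  rw [this, Valuation.map_one_add_of_lt _ h2]

lemma v_one_add {z : L} (hz : v z ≤ 1) : v (2 * z + 1) = 1 := by
  rw [add_comm]
  apply Valuation.map_one_add_of_lt
  rw [map_mul]
  exact mul_lt_one_of_lt_of_le h2 hz

lemma h3' : (3 : L) ≠ 0 := by
  intro h
  have := v3 v h2
  rw [h, map_zero] at this
  exact zero_ne_one this

/-- (I) the coordinates are integral -/
lemma x_le [Finite (Pt L)] (hd : ∀ x y : L, (E1 L).toAffine.Nonsingular x y →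
    2 * y + 1 ≠ 0) {x y : L} (h : (E1 L).toAffine.Nonsingular x y) : v x ≤ 1 := by
  by_contra hx
  push Not at hx
  let S : Set (Pt L) := {P | ∃ (x y : L) (h : (E1 L).toAffine.Nonsingular x y),
    P = Affine.Point.some x y h}
  let g : Pt L → Γ := fun P => match P with
    | 0 => 0
    | Affine.Point.some x y h => v x
  obtain ⟨P, hP, hmax⟩ := S.toFinite.exists_maximalFor g S ⟨Affine.Point.some x y h, x, y, h, rfl⟩
  obtain ⟨x₁, y₁, h₁, rfl⟩ := hP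
  have hx₁ : 1 < v x₁ := by
    rcases le_total (v x) (v x₁) with h' | h'
    · exact hx.trans_le h'
    · exact hx.trans_le (hmax ⟨x, y, h, rfl⟩ h')
  have hy₁ := hd _ _ h₁
  obtain ⟨ℓ, hℓ⟩ : ∃ ℓ, ℓ * (2 * y₁ + 1) = 3 * x₁ ^ 2 :=
    ⟨3 * x₁ ^ 2 / (2 * y₁ + 1), div_mul_cancel₀ _ hy₁⟩
  obtain ⟨k₁, d₁⟩ := dbl h₁ hy₁ ℓ hℓ
  have hE := (nons_iff (h3' v h2) _ _).1 h₁
  have e1 : (ℓ ^ 2 - x₁ - x₁) * (4 * x₁ ^ 3 + 1) = x₁ ^ 4 - 2 * x₁ := by
    have e2 : 4 * x₁ ^ 3 + 1 = (2 * y₁ + 1) ^ 2 := by linear_combination (-4 : L) * hE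
    have e3 : (ℓ ^ 2 - x₁ - x₁) * (4 * x₁ ^ 3 + 1) =
        (ℓ * (2 * y₁ + 1)) ^ 2 - 2 * x₁ * (4 * x₁ ^ 3 + 1) := by
      rw [e2]
      ring
    rw [e3, hℓ]
    ring
  have hx0 : (0 : Γ) < v x₁ := zero_lt_one.trans hx₁
  have e4 : v (x₁ ^ 4 - 2 * x₁) = v x₁ ^ 4 := by
    rw [Valuation.map_sub_eq_of_lt_left, map_pow]
    rw [map_mul, map_pow]
    calc v 2 * v x₁ < 1 * v x₁ := (mul_lt_mul_iff_left₀ hx0).2 h2
      _ = v x₁ ^ 1 := by rw [one_mul, pow_one]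
      _ < v x₁ ^ 4 := pow_lt_pow_right₀ hx₁ (by norm_num)
  have e5 : v (4 * x₁ ^ 3 + 1) < v x₁ ^ 3 := by
    apply Valuation.map_add_lt
    · have : (4 : L) = 2 * 2 := by norm_num
      rw [map_mul, map_pow, this, map_mul]
      calc v 2 * v 2 * v x₁ ^ 3 < 1 * v x₁ ^ 3 :=
            (mul_lt_mul_iff_left₀ (pow_pos hx0 3)).2 (mul_lt_one_of_lt_of_le h2 h2.le)
        _ = v x₁ ^ 3 := one_mul _
    · rw [map_one]
      exact one_lt_pow₀ hx₁ (by norm_num)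
  have e6 : v x₁ < v (ℓ ^ 2 - x₁ - x₁) := by
    by_contra hle
    push Not at hle
    have e7 : v x₁ ^ 4 < v x₁ ^ 4 := by
      calc v x₁ ^ 4 = v (ℓ ^ 2 - x₁ - x₁) * v (4 * x₁ ^ 3 + 1) := by rw [← map_mul, e1, e4]
        _ ≤ v x₁ * v (4 * x₁ ^ 3 + 1) := mul_le_mul_left hle _
        _ < v x₁ * v x₁ ^ 3 := (mul_lt_mul_iff_right₀ hx0).2 e5
        _ = v x₁ ^ 4 := (pow_succ' _ _).symm
    exact lt_irrefl _ e7
  have e8 := hmax (j := Affine.Point.some x₁ y₁ h₁ + Affine.Point.some x₁ y₁ h₁)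
    ⟨_, _, k₁, d₁⟩ (by rw [d₁]; exact e6.le)
  rw [d₁] at e8
  exact absurd e6 (not_lt.2 e8)

lemma y_le [Finite (Pt L)] (hd : ∀ x y : L, (E1 L).toAffine.Nonsingular x y →
    2 * y + 1 ≠ 0) {x y : L} (h : (E1 L).toAffine.Nonsingular x y) : v y ≤ 1 := by
  have hx := x_le v h2 hd h
  have hE := (nons_iff (h3' v h2) _ _).1 h
  by_contra hy
  push Not at hy
  have e1 : v (y ^ 2 + y) = v y ^ 2 := by
    rw [Valuation.map_add_eq_of_lt_left, map_pow]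
    rw [map_pow]
    calc v y = v y ^ 1 := (pow_one _).symm
      _ < v y ^ 2 := pow_lt_pow_right₀ hy (by norm_num)
  rw [hE, map_pow] at e1
  have e2 : v x ^ 3 ≤ 1 := pow_le_one₀ zero_le hx
  have e3 : 1 < v y ^ 2 := one_lt_pow₀ hy (by norm_num)
  rw [e1] at e2
  exact absurd e3 (not_lt.2 e2)

/-- (II) the reduction is injective -/
lemma red_inj [Finite (Pt L)] (hd : ∀ x y : L, (E1 L).toAffine.Nonsingular x y →
    2 * y + 1 ≠ 0) {x₁ y₁ x₂ y₂ : L} (h₁ : (E1 L).toAffine.Nonsingular x₁ y₁)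
    (h₂ : (E1 L).toAffine.Nonsingular x₂ y₂) (hx : v (x₁ - x₂) < 1) (hy : v (y₁ - y₂) < 1) :
    (Affine.Point.some x₁ y₁ h₁ : Pt L) = Affine.Point.some x₂ y₂ h₂ := by
  have hy₂ := y_le v h2 hd h₂
  have e0 : v (y₁ + y₂ + 1) = 1 := by
    have : y₁ + y₂ + 1 = (y₁ - y₂) + (2 * y₂ + 1) := by ring
    rw [this, Valuation.map_add_eq_of_lt_right, v_one_add v h2 hy₂]
    rw [v_one_add v h2 hy₂]
    exact hy
  by_cases hxx : x₁ = x₂
  · subst hxx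
    rcases y_cases ((nons_iff (h3' v h2) _ _).1 h₁) ((nons_iff (h3' v h2) _ _).1 h₂) with h | h
    · rw [h, map_zero] at e0
      exact absurd e0 zero_ne_one
    · exact pt_ext rfl h
  · exfalso
    obtain ⟨k₂, d₂⟩ := neg_pt h₂
    have hs0 : x₁ - x₂ ≠ 0 := sub_ne_zero.2 hxx
    obtain ⟨ℓ, hℓ⟩ : ∃ ℓ, ℓ * (x₁ - x₂) = y₁ - (-1 - y₂) :=
      ⟨(y₁ - (-1 - y₂)) / (x₁ - x₂), div_mul_cancel₀ _ hs0⟩
    obtain ⟨k₁, d₁⟩ := add_ne h₁ k₂ hxx ℓ hℓ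
    have e1 := x_le v h2 hd k₁
    have e2 : v ℓ * v (x₁ - x₂) = 1 := by
      rw [← map_mul, hℓ, ← e0]
      congr 1
      ring
    have e3 : 1 < v ℓ := by
      by_contra hle
      push Not at hle
      have : v ℓ * v (x₁ - x₂) < 1 := by
        calc v ℓ * v (x₁ - x₂) ≤ 1 * v (x₁ - x₂) := mul_le_mul_left hle _
          _ < 1 := by rw [one_mul]; exact hx
      exact absurd e2 this.ne
    have e4 : v (ℓ ^ 2 - x₁ - x₂) = v ℓ ^ 2 := by
      have : ℓ ^ 2 - x₁ - x₂ = ℓ ^ 2 - (x₁ + x₂) := by ring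
      rw [this, Valuation.map_sub_eq_of_lt_left, map_pow]
      rw [map_pow]
      calc v (x₁ + x₂) ≤ 1 := Valuation.map_add_le _ (x_le v h2 hd h₁) (x_le v h2 hd h₂)
        _ < v ℓ ^ 2 := one_lt_pow₀ e3 (by norm_num)
    rw [e4] at e1
    exact absurd (one_lt_pow₀ e3 two_ne_zero) (not_lt.2 e1)

lemma two_lt (z : v.integer) : v (2 * (z : L)) < 1 := by
  rw [map_mul]
  exact mul_lt_one_of_lt_of_le h2 z.2

omit h2 in
lemma pow4 {a b : L} (ha : v a ≤ 1) (hb : v b ≤ 1) (h : v (a - b) < 1) :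
    v (a ^ 4 - b ^ 4) < 1 := by
  obtain ⟨a', ha'⟩ : ∃ a' : v.integer, (a' : L) = a := ⟨⟨a, ha⟩, rfl⟩
  obtain ⟨b', hb'⟩ : ∃ b' : v.integer, (b' : L) = b := ⟨⟨b, hb⟩, rfl⟩
  have e : a ^ 4 - b ^ 4 = (a - b) * ((a' ^ 3 + a' ^ 2 * b' + a' * b' ^ 2 + b' ^ 3 : v.integer) : L) := by
    push_cast
    rw [ha', hb']
    ring
  rw [e, map_mul]
  exact mul_lt_one_of_lt_of_le h (a' ^ 3 + a' ^ 2 * b' + a' * b' ^ 2 + b' ^ 3 : v.integer).2

/-- (III) the Frobenius is `-2` -/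
lemma frob [Finite (Pt L)] (hd : ∀ x y : L, (E1 L).toAffine.Nonsingular x y →
    2 * y + 1 ≠ 0) {x y : L} (h : (E1 L).toAffine.Nonsingular x y) :
    ∃ (x' y' : L) (h' : (E1 L).toAffine.Nonsingular x' y'),
      (-2 : ℤ) • (Affine.Point.some x y h : Pt L) = Affine.Point.some x' y' h' ∧
      v (x' - x ^ 4) < 1 ∧ v (y' - y ^ 4) < 1 := by
  have hE := (nons_iff (h3' v h2) _ _).1 h
  have hx := x_le v h2 hd h
  have hy := y_le v h2 hd h
  have hd0 := hd _ _ h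
  obtain ⟨ℓ, hℓ⟩ : ∃ ℓ, ℓ * (2 * y + 1) = 3 * x ^ 2 :=
    ⟨3 * x ^ 2 / (2 * y + 1), div_mul_cancel₀ _ hd0⟩
  obtain ⟨k₁, d₁⟩ := dbl h hd0 ℓ hℓ
  obtain ⟨k₂, d₂⟩ := neg_pt k₁
  have vℓ : v ℓ ≤ 1 := by
    have e1 : v ℓ * v (2 * y + 1) = v 3 * v x ^ 2 := by
      rw [← map_mul, hℓ, map_mul, map_pow]
    rw [v_one_add v h2 hy, v3 v h2, mul_one, one_mul] at e1
    rw [e1]
    exact pow_le_one₀ zero_le hx
  obtain ⟨X, hX⟩ : ∃ X : v.integer, (X : L) = x := ⟨⟨x, hx⟩, rfl⟩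
  obtain ⟨Y, hY⟩ : ∃ Y : v.integer, (Y : L) = y := ⟨⟨y, hy⟩, rfl⟩
  obtain ⟨T, hT⟩ : ∃ T : v.integer, (T : L) = ℓ := ⟨⟨ℓ, vℓ⟩, rfl⟩
  obtain ⟨M, hM⟩ : ∃ M : v.integer, M = X ^ 2 - Y * T := ⟨_, rfl⟩
  obtain ⟨m, hm⟩ : ∃ m : L, m = M := ⟨_, rfl⟩
  have hm' : m = x ^ 2 - y * ℓ := by
    rw [hm, hM]
    push_cast
    rw [hX, hY, hT]
  have hℓm : ℓ = x ^ 2 + 2 * m := by
    rw [hm']
    linear_combination hℓ
  have c2 : ((2 : v.integer) : L) = 2 := rfl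
  have c3 : ((3 : v.integer) : L) = 3 := rfl
  have c4 : ((4 : v.integer) : L) = 4 := rfl
  have c6 : ((6 : v.integer) : L) = 6 := rfl
  refine ⟨_, _, k₂, ?_, ?_, ?_⟩
  · rw [← d₂, ← d₁, neg_smul, two_smul]
  · have e : ℓ ^ 2 - x - x - x ^ 4 =
        2 * ((2 * X ^ 2 * M + 2 * M ^ 2 - X : v.integer) : L) := by
      push_cast
      rw [c2, hX, ← hm, hℓm]
      ring
    rw [e]
    exact two_lt v h2 _
  · have e : -1 - (-(ℓ * (ℓ ^ 2 - x - x - x) + y) - 1) - y ^ 4 =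
        2 * ((-2 * X ^ 3 + Y + X ^ 3 * Y + 3 * X ^ 4 * M + 6 * X ^ 2 * M ^ 2 + 4 * M ^ 3
          - 3 * X * M : v.integer) : L) := by
      push_cast
      rw [c2, c3, c4, c6, hX, hY, ← hm, hℓm]
      have hy4 : y ^ 4 = x ^ 6 - 2 * x ^ 3 * y + x ^ 3 - y := by
        linear_combination (y ^ 2 - y + x ^ 3 + 1) * hE
      rw [hy4]
      ring
    rw [e]
    exact two_lt v h2 _

/-- (IV) -/
lemma frob_pow [Finite (Pt L)] (hd : ∀ x y : L, (E1 L).toAffine.Nonsingular x y →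
    2 * y + 1 ≠ 0) {x y : L} (h : (E1 L).toAffine.Nonsingular x y) (k : ℕ) :
    ∃ (x' y' : L) (h' : (E1 L).toAffine.Nonsingular x' y'),
      ((-2 : ℤ) ^ k) • (Affine.Point.some x y h : Pt L) = Affine.Point.some x' y' h' ∧
      v (x' - x ^ 4 ^ k) < 1 ∧ v (y' - y ^ 4 ^ k) < 1 := by
  induction k with
  | zero =>
    refine ⟨x, y, h, ?_, ?_, ?_⟩
    · rw [pow_zero, one_smul]
    · simp
    · simp
  | succ k ih =>
    obtain ⟨x', y', h', e, hx, hy⟩ := ih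
    obtain ⟨x'', y'', h'', e', hx', hy'⟩ := frob v h2 hd h'
    refine ⟨x'', y'', h'', ?_, ?_, ?_⟩
    · rw [pow_succ', mul_smul, e, e']
    · have : x'' - x ^ 4 ^ (k + 1) = (x'' - x' ^ 4) + (x' ^ 4 - (x ^ 4 ^ k) ^ 4) := by
        rw [pow_succ, pow_mul]
        ring
      rw [this]
      refine Valuation.map_add_lt _ hx' (pow4 v (x_le v h2 hd h') ?_ hx)
      rw [map_pow]
      exact pow_le_one₀ zero_le (x_le v h2 hd h)
    · have : y'' - y ^ 4 ^ (k + 1) = (y'' - y' ^ 4) + (y' ^ 4 - (y ^ 4 ^ k) ^ 4) := by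
        rw [pow_succ, pow_mul]
        ring
      rw [this]
      refine Valuation.map_add_lt _ hy' (pow4 v (y_le v h2 hd h') ?_ hy)
      rw [map_pow]
      exact pow_le_one₀ zero_le (y_le v h2 hd h)

/-- (V) -/
lemma nine [Finite (Pt L)] (hd : ∀ x y : L, (E1 L).toAffine.Nonsingular x y →
    2 * y + 1 ≠ 0) (k : ℕ) (hk : k = 1 ∨ k = 2 ∨ k = 3)
    (hq : ∀ a : L, v a ≤ 1 → v (a ^ 4 ^ k - a) < 1) (P : Pt L) : 9 • P = 0 := by
  rcases P with _ | ⟨x, y, h⟩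
  · have e : (Affine.Point.zero : Pt L) = 0 := rfl
    rw [e, smul_zero]
  · obtain ⟨x', y', h', e, hx, hy⟩ := frob_pow v h2 hd h k
    have e1 : (Affine.Point.some x' y' h' : Pt L) = Affine.Point.some x y h := by
      apply red_inj v h2 hd
      · have : x' - x = (x' - x ^ 4 ^ k) + (x ^ 4 ^ k - x) := by ring
        rw [this]
        exact Valuation.map_add_lt _ hx (hq _ (x_le v h2 hd h))
      · have : y' - y = (y' - y ^ 4 ^ k) + (y ^ 4 ^ k - y) := by ring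
        rw [this]
        exact Valuation.map_add_lt _ hy (hq _ (y_le v h2 hd h))
    rw [e1] at e
    obtain ⟨P, hP⟩ : ∃ P : Pt L, P = Affine.Point.some x y h := ⟨_, rfl⟩
    rw [← hP] at e ⊢
    have e2 : ((-2 : ℤ) ^ k - 1) • P = 0 := by
      rw [sub_smul, e, one_smul, sub_self]
    have e3 : (9 : ℤ) • P = 0 := by
      rcases hk with rfl | rfl | rfl
      · have : (9 : ℤ) = -3 * ((-2) ^ 1 - 1) := by norm_num
        rw [this, mul_smul, e2, smul_zero]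
      · have : (9 : ℤ) = 3 * ((-2) ^ 2 - 1) := by norm_num
        rw [this, mul_smul, e2, smul_zero]
      · have : (9 : ℤ) = -1 * ((-2) ^ 3 - 1) := by norm_num
        rw [this, mul_smul, e2, smul_zero]
    exact_mod_cast e3

end odd

end Pool.Agent.Y43.CTP
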