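import Mathlib
import Pool.Agent.Y696.CTP.Stm
import Pool.Agent.Y983.CTE.Gal
import Pool.Agent.Y43.CTP.Arith
import Pool.Agent.Y43.CTP.NF
import Pool.Agent.Y43.CTP.Odd

set_option autoImplicit false

/-!
# Project CTP, task CTP-CARDF: the number of the points of `y² + y = x³` over `F`

Job 5829 (poster helper696).
-/

open scoped Classical

namespace Pool.Agent.Y43.CTP

open NumberField IsDedekindDomain WeierstrassCurve
open Pool.Agent.Y692.QS (Ei nr toC w_sq w_cube)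
open Pool.Agent.Y696.CTE (Cub)
open Pool.Agent.Y983.CTE (sg sg_all gal' om_prim sg_apply th_ne cubeF)

section kum

variable {K F : Type} [Field K] [NumberField K] [Field F] [NumberField F] [Algebra K F]
  (j : Ei ≃+* 𝓞 K) {D : Ei} {θ : 𝓞 F}

lemma fixed (h : Cub j D θ) {z : F} (hz : sg j h z = z) : ∃ a : K, algebraMap K F a = z := by
  have hg := gal' j h
  have h1 : z ∈ Set.range (algebraMap K F) := by
    rw [IsGalois.mem_range_algebraMap_iff_fixed]
    intro g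
    obtain ⟨c, rfl⟩ := sg_all j h g
    induction c.val with
    | zero => simp
    | succ n ih => rw [pow_succ, AlgEquiv.mul_apply, hz, ih]
  exact h1

lemma kummer (h : Cub j D θ) {c : F} {e : K} (he : c ^ 3 = algebraMap K F e) :
    ∃ (i : ℕ) (a : K), i < 3 ∧ c = algebraMap K F a * (θ : F) ^ i := by
  by_cases hc : c = 0
  · exact ⟨0, 0, by norm_num, by rw [hc, map_zero, zero_mul]⟩
  have h1 : (sg j h c / c) ^ 3 = 1 := by
    rw [div_pow, ← map_pow, he, AlgEquiv.commutes, div_self]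
    rw [← he]
    exact pow_ne_zero 3 hc
  have hp : IsPrimitiveRoot (algebraMap K F (Pool.Agent.Y983.CTE.om j)) 3 :=
    (om_prim j).map_of_injective (algebraMap K F).injective
  obtain ⟨i, hi, hi'⟩ := hp.eq_pow_of_pow_eq_one h1
  have h2 : sg j h c = algebraMap K F (Pool.Agent.Y983.CTE.om j) ^ i * c := by
    rw [hi', div_mul_cancel₀ _ hc]
  have hθ := th_ne j h
  have hp0 : algebraMap K F (Pool.Agent.Y983.CTE.om j) ^ i ≠ 0 :=
    pow_ne_zero _ (hp.ne_zero (by norm_num))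
  obtain ⟨a, ha⟩ := fixed j h (z := c / (θ : F) ^ i) (by
    have h3 := sg_apply j h 1
    rw [pow_one, pow_one] at h3
    rw [map_div₀, map_pow, h2, h3, mul_pow, mul_div_mul_left _ _ hp0])
  exact ⟨i, a, hi, by rw [ha, div_mul_cancel₀ _ (pow_ne_zero _ hθ)]⟩

lemma no_cube (h : Cub j D θ) (e : Ei)
    (hb : ∀ (b : Ei) (m : ℕ), (m = 1 ∨ m = 2 ∨ m = 3) → b ^ 3 ≠ e * D ^ m) (c : F) :
    c ^ 3 ≠ algebraMap K F ((j e : 𝓞 K) : K) := by
  intro hc
  obtain ⟨i, a, hi, rfl⟩ := kummer j h hc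
  have h1 : a ^ 3 * ((j D : 𝓞 K) : K) ^ i = ((j e : 𝓞 K) : K) := by
    apply (algebraMap K F).injective
    rw [← hc, map_mul, map_pow, map_pow, ← cubeF j h]
    ring
  have h2 : (a * ((j D : 𝓞 K) : K)) ^ 3 = (((j e * j D ^ (3 - i) : 𝓞 K)) : K) := by
    have e1 : (((j e * j D ^ (3 - i) : 𝓞 K)) : K) =
        ((j e : 𝓞 K) : K) * ((j D : 𝓞 K) : K) ^ (3 - i) := by
      change algebraMap (𝓞 K) K _ = algebraMap (𝓞 K) K _ * algebraMap (𝓞 K) K _ ^ _
      rw [map_mul, map_pow]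
    rw [e1, ← h1, mul_assoc, ← pow_add]
    have e2 : i + (3 - i) = 3 := by omega
    rw [e2, mul_pow]
  have h3 : _root_.IsIntegral (𝓞 K) ((a * ((j D : 𝓞 K) : K)) ^ 3) := by
    rw [h2]
    exact isIntegral_algebraMap
  have h4 : _root_.IsIntegral (𝓞 K) (a * ((j D : 𝓞 K) : K)) := _root_.IsIntegral.of_pow (by norm_num) h3
  obtain ⟨y, hy⟩ := (IsIntegrallyClosed.isIntegral_iff (R := 𝓞 K) (K := K)).1 h4
  apply hb (j.symm y) (3 - i) (by omega)
  apply j.injective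
  rw [map_pow, map_mul, map_pow, j.apply_symm_apply]
  apply RingOfIntegers.ext
  rw [← h2, ← hy]
  exact map_pow (algebraMap (𝓞 K) K) y 3

include j in
lemma degK : Module.finrank ℚ K = 2 := by
  rw [← RingOfIntegers.rank, ← (j.toAddEquiv.toIntLinearEquiv).finrank_eq]
  exact QuadraticAlgebra.finrank_eq_two _ _

lemma degF (h : Cub j D θ) : Module.finrank ℚ F = 6 := by
  rw [← Module.finrank_mul_finrank ℚ K F, degK j, h.deg]

omit [NumberField K] [NumberField F] in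
lemma wF_rel : (algebraMap (𝓞 K) (𝓞 F) (j Pool.Agent.Y692.QS.w)) ^ 2 +
    algebraMap (𝓞 K) (𝓞 F) (j Pool.Agent.Y692.QS.w) + 1 = 0 := by
  rw [← map_pow, ← map_pow, ← map_add, ← map_add, ← map_one (algebraMap (𝓞 K) (𝓞 F)),
    ← map_add, ← map_one j, ← map_add]
  have : Pool.Agent.Y692.QS.w ^ 2 + Pool.Agent.Y692.QS.w + 1 = 0 := by decide
  rw [this, map_zero, map_zero]

end kum

theorem cardf : Pool.Agent.Y696.CTP.S_CARDF := by
  intro K F _ _ _ _ _ j D θ h hsq h3 hD2 hfin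
  have hfin' : Finite (Pt F) := hfin
  change Nat.card (Pt F) = 9
  obtain ⟨z, hz⟩ : ∃ z : 𝓞 F, z = algebraMap (𝓞 K) (𝓞 F) (j Pool.Agent.Y692.QS.w) := ⟨_, rfl⟩
  have hz1 : z ^ 2 + z + 1 = 0 := by
    rw [hz]
    exact wF_rel j
  have hw1 : (z : F) ^ 2 + (z : F) + 1 = 0 := by
    have := congrArg (algebraMap (𝓞 F) F) hz1
    rwa [map_add, map_add, map_pow, map_one, map_zero] at this
  have hw : (z : F) ^ 3 = 1 := by linear_combination ((z : F) - 1) * hw1
  have hzK : (z : F) = algebraMap K F ((j Pool.Agent.Y692.QS.w : 𝓞 K) : K) := by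
    rw [hz]
    rfl
  obtain ⟨v, hv2, k, hk, hq⟩ := place (degF j h) hz1
  have h30 : (3 : F) ≠ 0 := h3' _ hv2
  have hc2 : ∀ c : F, c ^ 3 ≠ 2 := by
    intro c hc
    apply no_cube j h 2 (fun b m hm => caseB hsq h3 hD2 m hm) c
    have e2 : ((j 2 : 𝓞 K) : K) = 2 := by
      rw [map_ofNat j]
      rfl
    rw [hc, e2, map_ofNat]
  have hcw : ∀ c : F, c ^ 3 ≠ (z : F) := by
    intro c hc
    apply no_cube j h Pool.Agent.Y692.QS.w
      (fun b m hm => caseA hsq h3 h.ncube (Or.inl rfl) m hm) c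
    rw [hc, hzK]
  have hcw2 : ∀ c : F, c ^ 3 ≠ (z : F) ^ 2 := by
    intro c hc
    apply no_cube j h (Pool.Agent.Y692.QS.w ^ 2)
      (fun b m hm => caseA hsq h3 h.ncube (Or.inr rfl) m hm) c
    rw [hc, hzK, map_pow, ← map_pow]
    rfl
  have hd : ∀ x y : F, (E1 F).toAffine.Nonsingular x y → 2 * y + 1 ≠ 0 := by
    intro x y hn hy
    have hE := (nons_iff h30 _ _).1 hn
    apply hc2 (-2 * x)
    linear_combination 8 * hE - (4 * y + 2) * hy
  refine card_nine hw h30 hw1 hd (fun P => ?_)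
  exact claimB hw h30 hw1 hd hcw hcw2 P (nine _ hv2 hd k hk hq P)

end Pool.Agent.Y43.CTP
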